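import Pool.Agent.Y112.SR.Defs

/-!
# Rings of correspondences and modules of classes: definitions
-/

set_option autoImplicit false

open CategoryTheory Limits MonoidalCategory
open Pool.Agent.Y112.SR

namespace Pool.Agent.X264.DN

universe v u w

section Mod

variable (E : Type*) [Ring E] {M : Type*} [AddCommGroup M] [Module E M]

/-- The submodule of `M` generated by `s` is simple. -/
def GeneratesSimple (s : Set M) : Prop := IsSimpleModule E (Submodule.span E s)

/-- The submodule of `M` generated by `s` is semisimple. -/
def GeneratesSemisimple (s : Set M) : Prop := IsSemisimpleModule E (Submodule.span E s)

/-- The submodule of `M` generated by `s` is injective. -/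
def GeneratesInjective (s : Set M) : Prop := Module.Injective E (Submodule.span E s)

end Mod

section Alg

variable {K : Type w} [Field K] {H : Type w} [AddCommGroup H] [Module K H]

/-- The ring `E` of operators is semisimple. -/
def OpsSemisimple (E : Subring (Module.End K H)) : Prop := IsSemisimpleRing E

/-- The ring `E` of operators is self-injective, i.e. it is an injective left module over
itself. -/
def OpsSelfInjective (E : Subring (Module.End K H)) : Prop := Module.Injective E E

/-- The space `H` is a semisimple module over the ring `E` of operators. -/
def SpaceSemisimple (E : Subring (Module.End K H)) : Prop := IsSemisimpleModule E H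

/-- Each operator `T` in the ring `E` has a generalized inverse in `E`, i.e. an operator `S` in `E`
with `T S T = T`. -/
def OpsInverses (E : Subring (Module.End K H)) : Prop := ∀ T ∈ E, ∃ S ∈ E, T * S * T = T

/-- The `E`-submodule of `H` generated by `s` is simple. -/
def SpanSimple (E : Subring (Module.End K H)) (s : Set H) : Prop := GeneratesSimple E s

/-- The `E`-submodule of `H` generated by `s` is semisimple. -/
def SpanSemisimple (E : Subring (Module.End K H)) (s : Set H) : Prop := GeneratesSemisimple E s

/-- The `E`-submodule of `H` generated by `s` is an injective `E`-module. -/
def SpanInjective (E : Subring (Module.End K H)) (s : Set H) : Prop := GeneratesInjective E s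

end Alg

section

variable {C : Type u} [Category.{v} C] [Preadditive C] [MonoidalCategory C]
  [SymmetricCategory C] {K : Type w} [Field K]

/-- The vector space of the realisation of `M`. -/
def Sp (R : SuperRealisation C K) (M : C) : Type w := R.H.obj M

instance (R : SuperRealisation C K) (M : C) : AddCommGroup (Sp R M) :=
  inferInstanceAs (AddCommGroup (R.H.obj M))

instance (R : SuperRealisation C K) (M : C) : Module K (Sp R M) :=
  inferInstanceAs (Module K (R.H.obj M))

/-- The linear map induced by a morphism. -/
def op (R : SuperRealisation C K) {M N : C} (x : M ⟶ N) : Sp R M →ₗ[K] Sp R N :=
  (R.H.map x).hom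

/-- The element `1` of the realisation of the unit. -/
noncomputable def unitClass (R : SuperRealisation C K) : Sp R (𝟙_ C) :=
  (Functor.LaxMonoidal.ε R.H).hom (1 : K)

/-- The class in the realisation of `M` of a morphism from the unit to `M`. -/
noncomputable def cl (R : SuperRealisation C K) {M : C} (f : 𝟙_ C ⟶ M) : Sp R M :=
  op R f (unitClass R)

/-- Homological and numerical equivalence agree for `M`: a morphism `f` from the unit to `M` such
that `f ≫ g = 0` for all morphisms `g` from `M` to the unit has vanishing realisation. -/
def HomEqNum (R : SuperRealisation C K) (M : C) : Prop :=
  ∀ f : 𝟙_ C ⟶ M, (∀ g : M ⟶ 𝟙_ C, f ≫ g = 0) → R.H.map f = 0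

/-- The ring of the operators on the realisation of `M` which are generated by the endomorphisms of
`M`. -/
noncomputable def corrRing (R : SuperRealisation C K) (M : C) : Subring (Module.End K (Sp R M)) :=
  Subring.closure (Set.range fun x : M ⟶ M => op R x)

/-- The classes in the realisation of `M` of the morphisms from the unit to `M`. -/
def classes (R : SuperRealisation C K) (M : C) : Set (Sp R M) :=
  Set.range fun f : 𝟙_ C ⟶ M => cl R f

/-- The module of the classes over the ring of correspondences is simple. -/
def ClassesSimple (R : SuperRealisation C K) (M : C) : Prop :=
  SpanSimple (corrRing R M) (classes R M)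

/-- The module of the classes over the ring of correspondences is semisimple. -/
def ClassesSemisimple (R : SuperRealisation C K) (M : C) : Prop :=
  SpanSemisimple (corrRing R M) (classes R M)

/-- The module of the classes over the ring of correspondences is injective. -/
def ClassesInjective (R : SuperRealisation C K) (M : C) : Prop :=
  SpanInjective (corrRing R M) (classes R M)

/-- The ring of correspondences is self-injective. -/
def CorrSelfInjective (R : SuperRealisation C K) (M : C) : Prop := OpsSelfInjective (corrRing R M)

/-- The ring of correspondences is semisimple. -/
def CorrSemisimple (R : SuperRealisation C K) (M : C) : Prop := OpsSemisimple (corrRing R M)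

/-- The realisation of `M` is a semisimple module over the ring of correspondences. -/
def RealisationSemisimple (R : SuperRealisation C K) (M : C) : Prop :=
  SpaceSemisimple (corrRing R M)

/-- Each element of the ring of correspondences of `M` has a generalized inverse in this ring. -/
def CorrInverses (R : SuperRealisation C K) (M : C) : Prop := OpsInverses (corrRing R M)

end

end Pool.Agent.X264.DN
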